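import Pool.Agent.H.MP_5faa0b_co.A

/-! Almost every ordered matching on `n` vertices has ordered Ramsey number `O(n^(3/2) (log n)^2)`
against the triangle. -/

namespace Pool.Agent.Results.MP_5faa0b_co.AlmostAll
open Filter Topology Pool.Agent.H.MP_075e78_co Pool.Agent.H.MP_5faa0b_co

theorem result : ∃ C : ℝ, Tendsto (fun m : ℕ =>
    ({M : Fin (2 * m) → Fin (2 * m) | IsMatching M ∧
      RamseyLe M (C * (2 * m : ℝ) ^ (3 / 2 : ℝ) * Real.log (2 * m) ^ 2)}.ncard : ℝ) /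
    ({M : Fin (2 * m) → Fin (2 * m) | IsMatching M}.ncard : ℝ)) atTop (𝓝 1) := by
  classical
  refine ⟨5 * 768 * 32 ^ 2, tendsto_of_tendsto_of_tendsto_of_le_of_le'
    (g := fun m : ℕ => 1 - 1 / (m : ℝ)) (by
      simpa using tendsto_const_nhds.sub (tendsto_one_div_atTop_nhds_zero_nat (𝕜 := ℝ))) tendsto_const_nhds
    ?_ (Eventually.of_forall fun m => div_le_one_of_le₀ (Nat.cast_le.mpr (Set.ncard_le_ncard
      (fun M h => h.1) (Set.toFinite _))) (Nat.cast_nonneg _))⟩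
  filter_upwards [eventually_ge_atTop 8] with m hm
  have mb : ∀ M, M ∈ B (2 * m) ∅ ∅ 0 ↔ IsMatching M := fun M => by simp [B]
  have e : {M : Fin (2 * m) → Fin (2 * m) | IsMatching M} = B (2 * m) ∅ ∅ 0 :=
    Set.ext fun M => (mb M).symm
  have p : (0 : ℝ) < (B (2 * m) ∅ ∅ 0).card := by
    obtain ⟨M, hM⟩ := nemp (m := m) (l := 0) (by omega)
    exact_mod_cast Finset.card_pos.mpr ⟨M, (mb M).mpr ((mem M).mp hM).1⟩
  have m0 : (1 : ℝ) ≤ m := by exact_mod_cast (by omega : 1 ≤ m)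
  have f := (Nat.cast_le (α := ℝ)).mpr (few2 (n := 2 * m) (by omega))
  have s := congrArg (Nat.cast (R := ℝ)) (Finset.card_filter_add_card_filter_not
    (s := B (2 * m) ∅ ∅ 0) fun M => Rm M (bd2 (2 * m)))
  have b := bd2_le (show 2 ≤ 2 * m by omega)
  push_cast at f s b
  rw [e, Set.ncard_coe_finset, le_div_iff₀ p]
  refine le_trans ?_ (Nat.cast_le.mpr ((Set.ncard_coe_finset ((B (2 * m) ∅ ∅ 0).filter
    fun M => Rm M (bd2 (2 * m)))).symm.trans_le (Set.ncard_le_ncard (fun M h => ?_) (Set.toFinite _))))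
  · rw [sub_mul, one_mul, ← s, add_sub_assoc, add_le_iff_nonpos_right, sub_nonpos, s, div_mul_eq_mul_div,
      one_mul, le_div_iff₀ (by linarith)]
    refine le_trans ?_ f
    rw [mul_comm]
    gcongr
    nlinarith
  · obtain ⟨h1, h2⟩ := Finset.mem_filter.mp h
    exact ⟨(mb M).mp h1, _, b, fun G => (em _).imp_left (h2 G)⟩

end Pool.Agent.Results.MP_5faa0b_co.AlmostAll
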